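import Mathlib
import Pool.Agent.H326R3.CB6

/-!
The corona theorem on the unit ball of `ℂ^(n+1)` for bounded holomorphic data which have, near
every boundary point, at most one member that is not asymptotic to a function of one variable; and
the corona theorem for the algebra generated by the ball algebra and all bounded functions of one
variable `h(⟨z, a⟩)`, `|a| = 1`, together with one arbitrary bounded holomorphic function.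
-/

set_option autoImplicit false

open Metric Set Filter Topology
open Pool.Agent.H720R2.Cor (Ball IsAutomorphism)

namespace Pool.Agent.Results.MP_ca0fc2_an.OneBadFunction

/-- The pairing `⟨z, a⟩ = ∑ z_i conj (a_i)`. -/
noncomputable def pair {n : ℕ} (z a : Fin n → ℂ) : ℂ := ∑ i, z i * starRingEnd ℂ (a i)

/-- The functions on `ℂ^n` that are continuous on the closed ball and holomorphic on the open
ball. -/
def BallAlgebra (n : ℕ) : Set ((Fin n → ℂ) → ℂ) :=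
  {f | ContinuousOn f {z | ∑ i, ‖z i‖ ^ 2 ≤ 1} ∧ DifferentiableOn ℂ f (Ball n)}

/-- The functions `z ↦ h (⟨z, a⟩)` with `|a| = 1` and `h` bounded holomorphic on the disc. -/
def OneVariable (n : ℕ) : Set ((Fin n → ℂ) → ℂ) :=
  {f | ∃ (a : Fin n → ℂ) (h : ℂ → ℂ), ∑ i, ‖a i‖ ^ 2 = 1 ∧
    DifferentiableOn ℂ h (ball 0 1) ∧ (∃ M : ℝ, ∀ w ∈ ball (0 : ℂ) 1, ‖h w‖ ≤ M) ∧
    f = fun z => h (pair z a)}

/-- `f` is asymptotic at the boundary point `p` to a bounded holomorphic function of `(ψ z)₀`. -/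
def AsymptoticVia {n : ℕ} (ψ : (Fin (n + 1) → ℂ) → (Fin (n + 1) → ℂ)) (p : Fin (n + 1) → ℂ)
    (f : (Fin (n + 1) → ℂ) → ℂ) : Prop :=
  ∃ h : ℂ → ℂ, DifferentiableOn ℂ h (ball 0 1) ∧ (∃ M : ℝ, ∀ w ∈ ball (0 : ℂ) 1, ‖h w‖ ≤ M) ∧
    Tendsto (fun z => f z - h (ψ z 0)) (𝓝[Ball (n + 1)] p) (𝓝 0)

/-- **Corona theorem for data with at most one bad function near each boundary point.** -/
theorem result (n N : ℕ) :
    (∀ f : Fin N → (Fin (n + 1) → ℂ) → ℂ,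
      (∀ j, DifferentiableOn ℂ (f j) (Ball (n + 1))) →
      (∀ j, ∃ M : ℝ, ∀ z ∈ Ball (n + 1), ‖f j z‖ ≤ M) →
      (∀ z ∈ Ball (n + 1), ∃ j, f j z ≠ 0) →
      (∀ p : Fin (n + 1) → ℂ, ∑ i, ‖p i‖ ^ 2 = 1 →
        ∃ ψ : (Fin (n + 1) → ℂ) → (Fin (n + 1) → ℂ), IsAutomorphism ψ ∧
          Tendsto (fun z => ψ z 0) (𝓝[Ball (n + 1)] p) (𝓝 1) ∧
          (∀ r : ℝ, 0 < r → ∃ ε : ℝ, 0 < ε ∧ ∀ z ∈ Ball (n + 1), ‖ψ z 0 - 1‖ < ε → ‖z - p‖ < r) ∧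
          ∃ (k : Fin N) (S : Finset (Fin N)) (c : ℝ), 0 < c ∧
            (∀ᶠ z in 𝓝[Ball (n + 1)] p, c ≤ ‖f k z‖ + ∑ j ∈ S, ‖f j z‖) ∧
            ∀ j ∈ S, AsymptoticVia ψ p (f j)) →
      ∃ g : Fin N → (Fin (n + 1) → ℂ) → ℂ,
        (∀ j, DifferentiableOn ℂ (g j) (Ball (n + 1))) ∧
        (∃ C : ℝ, ∀ j, ∀ z ∈ Ball (n + 1), ‖g j z‖ ≤ C) ∧
        ∀ z ∈ Ball (n + 1), ∑ j, f j z * g j z = 1) ∧
    (∀ (f : Fin N → (Fin (n + 1) → ℂ) → ℂ) (G : (Fin (n + 1) → ℂ) → ℂ),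
      (∀ j, f j ∈ Algebra.adjoin ℂ (BallAlgebra (n + 1) ∪ OneVariable (n + 1))) →
      DifferentiableOn ℂ G (Ball (n + 1)) →
      (∃ M : ℝ, ∀ z ∈ Ball (n + 1), ‖G z‖ ≤ M) →
      ∀ δ : ℝ, 0 < δ → (∀ z ∈ Ball (n + 1), δ ≤ ∑ j, ‖f j z‖ + ‖G z‖) →
      ∃ (g : Fin N → (Fin (n + 1) → ℂ) → ℂ) (g₀ : (Fin (n + 1) → ℂ) → ℂ),
        (∀ j, DifferentiableOn ℂ (g j) (Ball (n + 1))) ∧ DifferentiableOn ℂ g₀ (Ball (n + 1)) ∧
        (∃ C : ℝ, (∀ j, ∀ z ∈ Ball (n + 1), ‖g j z‖ ≤ C) ∧ ∀ z ∈ Ball (n + 1), ‖g₀ z‖ ≤ C) ∧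
        ∀ z ∈ Ball (n + 1), ∑ j, f j z * g j z + G z * g₀ z = 1) := by
  refine ⟨fun f hd hb hz hp => ?_, fun f G hf hG hGb δ hδ hc =>
    Pool.Agent.H326R3.CB.corona3 n N f G hf hG hGb δ hδ hc⟩
  refine Pool.Agent.H326R3.CB.corona2 n N f hd hb hz (fun p hp1 => ?_)
  obtain ⟨ψ, hψ, h1, h2, k, S, c, hc, hlow, hS⟩ := hp p hp1
  refine ⟨ψ, hψ, ?_, k, S, c, hc, hlow, hS⟩
  apply le_antisymm
  · refine le_inf inf_le_right ?_
    rwa [← tendsto_iff_comap]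
  · refine le_inf ?_ inf_le_left
    intro U hU
    obtain ⟨r, hr, hrU⟩ := Metric.mem_nhds_iff.1 hU
    obtain ⟨ε, hε, hεr⟩ := h2 r hr
    have h3 : {z : Fin (n + 1) → ℂ | ‖ψ z 0 - 1‖ < ε} ∈ comap (fun z => ψ z 0) (𝓝 (1 : ℂ)) := by
      refine ⟨ball 1 ε, ball_mem_nhds _ hε, fun z hz => ?_⟩
      simpa [dist_eq_norm] using hz
    have h4 : Ball (n + 1) ∩ {z : Fin (n + 1) → ℂ | ‖ψ z 0 - 1‖ < ε} ∈
        𝓟 (Ball (n + 1)) ⊓ comap (fun z => ψ z 0) (𝓝 (1 : ℂ)) :=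
      inter_mem_inf (mem_principal_self _) h3
    refine mem_of_superset h4 (fun z hz => hrU ?_)
    rw [mem_ball, dist_eq_norm]
    exact hεr z hz.1 hz.2

end Pool.Agent.Results.MP_ca0fc2_an.OneBadFunction
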