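import Pool.Agent.Y266.LT.POS
import Pool.Agent.Y266.LT.N3
import Pool.Agent.Y266.LT.N4ALL
import Pool.Agent.Y266.LT.INV

/-!
# Locality tensor products: the threshold dimension

* In dimension at most `3`, over every field, all locality tensor products `V ⊗_⊤ W` are locality
  vector spaces.
* Over every field every vector space of dimension at least `5` carries a locality relation for
  which `E ⊗_⊤ E` is not a locality vector space.
* If the field has a subring with a nontrivial involution (for instance `ℝ`, `ℂ` and all fields
  with a transcendental element), this already holds in dimension `4`; so over these fields the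
  answer is positive exactly up to dimension `3`.
-/

set_option autoImplicit false

open scoped TensorProduct

universe u v

namespace Pool.Agent.Results.MP_16c542_al.DimensionThreshold

open Pool.Agent.Results.MP_16c542_al.NotLocality Pool.Agent.Y266.LT

/-- For every locality relation on `E` all locality tensor products `V ⊗_⊤ W` of subspaces of `E`
are locality vector spaces. -/
def AllLocality (K : Type u) [Field K] (E : Type v) [AddCommGroup E] [Module K E] : Prop :=
  ∀ r : E → E → Prop, IsLocalitySpace K r →
    ∀ V W : Submodule K E, IsLocalitySpace K (TensorRel r V W)

theorem result :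
    -- dimension at most three, any field
    (∀ (K : Type u) [Field K] (E : Type v) [AddCommGroup E] [Module K E],
      Module.rank K E ≤ 3 → AllLocality K E) ∧
    -- dimension at least five, any field
    (∀ (K : Type u) [Field K] (E : Type v) [AddCommGroup E] [Module K E],
      5 ≤ Module.rank K E → HasBad K E) ∧
    -- dimension at least four, fields with a subring that has a nontrivial involution
    (∀ (K : Type u) [Field K] (E : Type v) [AddCommGroup E] [Module K E],
      HasInvolution K → 4 ≤ Module.rank K E → HasBad K E) ∧
    -- the exact threshold for these fields
    (∀ (K : Type u) [Field K] (E : Type v) [AddCommGroup E] [Module K E],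
      HasInvolution K → (AllLocality K E ↔ Module.rank K E ≤ 3)) ∧
    -- these fields include `ℝ`, `ℂ` and all fields with a transcendental element
    (∀ (K F : Type u) [Field K] [CommRing F] [Algebra F K] (t : K), Transcendental F t →
      HasInvolution K) ∧
    HasInvolution ℝ ∧ HasInvolution ℂ := by
  have hp : ∀ (K : Type u) [Field K] (E : Type v) [AddCommGroup E] [Module K E],
      Module.rank K E ≤ 3 → AllLocality K E := fun K _ E _ _ h r hr V W => pos K E r h hr V W
  have h4 : ∀ (K : Type u) [Field K] (E : Type v) [AddCommGroup E] [Module K E],
      HasInvolution K → 4 ≤ Module.rank K E → HasBad K E := by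
    intro K _ E _ _ hK hE
    refine lift K 3 (n3 K hK) E ?_
    have : ((3 : ℕ) : Cardinal) + 1 = 4 := by norm_num
    rwa [this]
  refine ⟨hp, ?_, h4, ?_, fun K F _ _ _ t ht => hasInvolution_of_transcendental ht,
    hasInvolution_real, hasInvolution_complex⟩
  · intro K _ E _ _ hE
    refine lift K 4 (n4all K) E ?_
    have : ((4 : ℕ) : Cardinal) + 1 = 5 := by norm_num
    rwa [this]
  · intro K _ E _ _ hK
    refine ⟨fun h => ?_, hp K E⟩
    by_contra hcon
    have hlt : (3 : Cardinal) < Module.rank K E := not_le.1 hcon
    have h5 : (4 : Cardinal) ≤ Module.rank K E := by
      have h6 := Order.succ_le_of_lt hlt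
      have h7 : Order.succ (3 : Cardinal) = 4 := by
        have := Cardinal.nat_succ 3
        rw [show ((Nat.succ 3 : ℕ) : Cardinal) = 4 by norm_num,
          show ((3 : ℕ) : Cardinal) = 3 by norm_num] at this
        exact this.symm
      rwa [h7] at h6
    obtain ⟨r, hr, -, hbad⟩ := h4 K E hK h5
    exact hbad (h r hr ⊤ ⊤)

end Pool.Agent.Results.MP_16c542_al.DimensionThreshold
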